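import Pool.Agent.Helper454.Kauf.Defs

/-!
# Calculus of sliced tangles up to isotopy
-/

set_option autoImplicit false

namespace Pool.Agent.Q124.TK

open Pool.Agent.Helper454.Kauf
open Pool.Agent.Helper454.Kauf.Piece (birth death pos neg)

/-- the width of a composite -/
theorem width_append (u v : Word) (n : ℕ) : width (u ++ v) n = (width u n).bind (width v) := by
  induction u generalizing n with
  | nil => simp [width]
  | cons p u ih =>
    simp only [List.cons_append, width]
    cases p.width n with
    | none => rfl
    | some m => simp [ih]

theorem width_comp {u v : Word} {n k l : ℕ} (h : width u n = some k) (h' : width v k = some l) :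
    width (u ++ v) n = some l := by
  rw [width_append, h]; simpa using h'

/-- one piece, moved to the right by `a` -/
def pup (a : ℕ) (p : Piece) : Piece := p.moved (p.index + a)

/-- `a` more strands to the left of a tangle -/
def shift (a : ℕ) (w : Word) : Word := w.map (pup a)

@[simp] theorem up_birth (a i : ℕ) : pup a (birth i) = birth (i + a) := rfl
@[simp] theorem up_death (a i : ℕ) : pup a (death i) = death (i + a) := rfl
@[simp] theorem up_pos (a i : ℕ) : pup a (pos i) = pos (i + a) := rfl
@[simp] theorem up_neg (a i : ℕ) : pup a (neg i) = neg (i + a) := rfl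
@[simp] theorem shift_nil (a : ℕ) : shift a [] = [] := rfl
@[simp] theorem shift_cons (a : ℕ) (p : Piece) (w : Word) :
    shift a (p :: w) = pup a p :: shift a w := rfl
@[simp] theorem shift_append (a : ℕ) (v w : Word) : shift a (v ++ w) = shift a v ++ shift a w := by
  simp [shift]

@[simp] theorem shift_shift (a b : ℕ) (w : Word) : shift a (shift b w) = shift (b + a) w := by
  induction w with
  | nil => rfl
  | cons p w ih =>
    simp only [shift_cons, ih]
    cases p <;> simp [Nat.add_assoc]

@[simp] theorem shift_zero (w : Word) : shift 0 w = w := by
  induction w with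
  | nil => rfl
  | cons p w ih =>
    simp only [shift_cons, ih]
    cases p <;> simp

theorem width_up {p : Piece} {n k : ℕ} (a : ℕ) (h : p.width n = some k) :
    (pup a p).width (n + a) = some (k + a) := by
  cases p <;> simp only [Piece.width, up_birth, up_death, up_pos, up_neg] at h ⊢ <;>
    split at h <;> simp_all <;> omega

theorem width_shift {w : Word} {n k : ℕ} (a : ℕ) (h : width w n = some k) :
    width (shift a w) (n + a) = some (k + a) := by
  induction w generalizing n with
  | nil => simp [width] at h ⊢; omega
  | cons p w ih =>
    simp only [width] at h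
    cases hp : p.width n with
    | none => rw [hp] at h; simp at h
    | some m =>
      rw [hp] at h
      simp only [shift_cons, width]
      rw [width_up a hp]
      exact ih (by simpa using h)

theorem width_piece_ext {p : Piece} {n k : ℕ} (a : ℕ) (h : p.width n = some k) :
    p.width (n + a) = some (k + a) := by
  cases p <;> simp only [Piece.width] at h ⊢ <;> split at h <;> simp_all <;> omega

theorem width_ext {w : Word} {n k : ℕ} (a : ℕ) (h : width w n = some k) :
    width w (n + a) = some (k + a) := by
  induction w generalizing n with
  | nil => simp [width] at h ⊢; omega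
  | cons p w ih =>
    simp only [width] at h
    cases hp : p.width n with
    | none => rw [hp] at h; simp at h
    | some m =>
      rw [hp] at h
      simp only [width]
      rw [width_piece_ext a hp]
      exact ih (by simpa using h)

/-- one move between tangles with `n` strands above and `k` strands below -/
inductive TStep (n k : ℕ) : Word → Word → Prop
  | mk (x l r y : Word) : LocalMove l r ∨ FirstMove l r → width (x ++ l ++ y) n = some k →
      width (x ++ r ++ y) n = some k → TStep n k (x ++ l ++ y) (x ++ r ++ y)

/-- isotopic tangles -/
def E (n k : ℕ) (u v : Word) : Prop :=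
  width u n = some k ∧ width v n = some k ∧ Relation.EqvGen (TStep n k) u v

theorem E.refl {n k : ℕ} {u : Word} (h : width u n = some k) : E n k u u :=
  ⟨h, h, Relation.EqvGen.refl _⟩

theorem E.symm {n k : ℕ} {u v : Word} (h : E n k u v) : E n k v u :=
  ⟨h.2.1, h.1, Relation.EqvGen.symm _ _ h.2.2⟩

theorem E.trans {n k : ℕ} {u v w : Word} (h : E n k u v) (h' : E n k v w) : E n k u w :=
  ⟨h.1, h'.2.1, Relation.EqvGen.trans _ _ _ h.2.2 h'.2.2⟩

instance (n k : ℕ) : Trans (E n k) (E n k) (E n k) := ⟨E.trans⟩

theorem E.iso {u v : Word} (h : E 0 0 u v) : Isotopic u v := by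
  have h3 := h.2.2
  clear h
  induction h3 with
  | rel x y h =>
    obtain ⟨x, l, r, y, hm, h1, h2⟩ := h
    exact Relation.EqvGen.rel _ _ ⟨x, l, r, y, hm, h1, h2⟩
  | refl x => exact Relation.EqvGen.refl _
  | symm x y _ ih => exact Relation.EqvGen.symm _ _ ih
  | trans x y z _ _ ih1 ih2 => exact Relation.EqvGen.trans _ _ _ ih1 ih2

/-- a general transport principle -/
theorem E.map {n k n' k' : ℕ} (f : Word → Word)
    (hw : ∀ w, width w n = some k → width (f w) n' = some k')
    (hs : ∀ u v, TStep n k u v → TStep n' k' (f u) (f v)) {u v : Word} (h : E n k u v) :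
    E n' k' (f u) (f v) := by
  refine ⟨hw _ h.1, hw _ h.2.1, ?_⟩
  have h3 := h.2.2
  clear h
  induction h3 with
  | rel x y h => exact Relation.EqvGen.rel _ _ (hs _ _ h)
  | refl x => exact Relation.EqvGen.refl _
  | symm x y _ ih => exact Relation.EqvGen.symm _ _ ih
  | trans x y z _ _ ih1 ih2 => exact Relation.EqvGen.trans _ _ _ ih1 ih2

theorem E.ctx {m n k l : ℕ} {u v : Word} (x y : Word) (hx : width x m = some n)
    (hy : width y k = some l) (h : E n k u v) : E m l (x ++ u ++ y) (x ++ v ++ y) := by
  refine E.map (fun w => x ++ w ++ y) (fun w hw => width_comp (width_comp hx hw) hy) ?_ h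
  rintro _ _ ⟨x', l', r', y', hm, h1, h2⟩
  have e1 : x ++ (x' ++ l' ++ y') ++ y = (x ++ x') ++ l' ++ (y' ++ y) := by simp
  have e2 : x ++ (x' ++ r' ++ y') ++ y = (x ++ x') ++ r' ++ (y' ++ y) := by simp
  show TStep m l (x ++ (x' ++ l' ++ y') ++ y) (x ++ (x' ++ r' ++ y') ++ y)
  have w1 := width_comp (width_comp hx h1) hy
  have w2 := width_comp (width_comp hx h2) hy
  rw [e1] at w1 ⊢
  rw [e2] at w2 ⊢
  exact ⟨_, _, _, _, hm, w1, w2⟩

theorem E.app {n k l : ℕ} {u v u' v' : Word} (h : E n k u v) (h' : E k l u' v') :
    E n l (u ++ u') (v ++ v') := by
  have a := E.ctx [] u' rfl h'.1 h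
  have b := E.ctx v [] h.2.1 rfl h'
  simp only [List.nil_append, List.append_nil] at a b
  exact a.trans b

theorem E.appr {n k l : ℕ} {u v w : Word} (h : E n k u v) (h' : width w k = some l) :
    E n l (u ++ w) (v ++ w) := h.app (E.refl h')

theorem E.appl {n k l : ℕ} {u v w : Word} (h : width w n = some k) (h' : E k l u v) :
    E n l (w ++ u) (w ++ v) := (E.refl h).app h'

theorem moveShift (a : ℕ) {l r : Word} (h : LocalMove l r ∨ FirstMove l r) :
    LocalMove (shift a l) (shift a r) ∨ FirstMove (shift a l) (shift a r) := by
  rcases h with h | h
  · left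
    cases h with
    | exchange p q h =>
      have := LocalMove.exchange (pup a p) (pup a q)
        (by cases p <;> cases q <;> simp_all [Piece.index, Piece.ins] <;> omega)
      cases p <;> cases q <;>
        simp_all [Piece.moved, Piece.outs, Piece.ins, Piece.index, pup, shift] <;>
        (convert this using 3 <;> congr 1 <;> omega)
    | zigzag₁ i =>
      have := LocalMove.zigzag₁ (i + a)
      simpa [Nat.add_right_comm] using this
    | zigzag₂ i =>
      have := LocalMove.zigzag₂ (i + a)
      simpa [Nat.add_right_comm] using this
    | slideBirth₁ i =>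
      have := LocalMove.slideBirth₁ (i + a)
      simpa [Nat.add_right_comm] using this
    | slideBirth₂ i =>
      have := LocalMove.slideBirth₂ (i + a)
      simpa [Nat.add_right_comm] using this
    | slideDeath₁ i =>
      have := LocalMove.slideDeath₁ (i + a)
      simpa [Nat.add_right_comm] using this
    | slideDeath₂ i =>
      have := LocalMove.slideDeath₂ (i + a)
      simpa [Nat.add_right_comm] using this
    | second₁ i => simpa using LocalMove.second₁ (i + a)
    | second₂ i => simpa using LocalMove.second₂ (i + a)
    | third i =>
      have := LocalMove.third (i + a)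
      simpa [Nat.add_right_comm] using this
  · right
    cases h with
    | birthPos i => simpa using FirstMove.birthPos (i + a)
    | birthNeg i => simpa using FirstMove.birthNeg (i + a)
    | deathPos i => simpa using FirstMove.deathPos (i + a)
    | deathNeg i => simpa using FirstMove.deathNeg (i + a)

theorem E.shift {n k : ℕ} {u v : Word} (a : ℕ) (h : E n k u v) :
    E (n + a) (k + a) (shift a u) (shift a v) := by
  refine E.map (fun w => TK.shift a w) (fun w hw => width_shift a hw) ?_ h
  rintro _ _ ⟨x', l', r', y', hm, h1, h2⟩
  have w1 := width_shift a h1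
  have w2 := width_shift a h2
  simp only [shift_append] at w1 w2 ⊢
  exact ⟨_, _, _, _, moveShift a hm, w1, w2⟩

theorem E.ext {n k : ℕ} {u v : Word} (a : ℕ) (h : E n k u v) : E (n + a) (k + a) u v := by
  refine E.map (fun w => w) (fun w hw => width_ext a hw) ?_ h
  rintro _ _ ⟨x', l', r', y', hm, h1, h2⟩
  exact ⟨_, _, _, _, hm, width_ext a h1, width_ext a h2⟩

theorem E.of {n k : ℕ} {l r : Word} (hm : LocalMove l r ∨ FirstMove l r)
    (h1 : width l n = some k) (h2 : width r n = some k) : E n k l r := by
  refine ⟨h1, h2, Relation.EqvGen.rel _ _ ?_⟩
  have := TStep.mk (n := n) (k := k) [] l r [] hm (by simpa using h1) (by simpa using h2)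
  simpa using this

/-- far commutation of two pieces -/
theorem comm_piece {p q : Piece} {n k m l : ℕ} (hp : p.width n = some k) (hq : q.width m = some l) :
    E (n + m) (k + l) [p, pup k q] [pup n q, p] := by
  have h1 : width [p, pup k q] (n + m) = some (k + l) := by
    simp only [width, width_piece_ext m hp, Option.bind_some]
    rw [Nat.add_comm k m, width_up k hq]
    simp [Nat.add_comm]
  have h2 : width [pup n q, p] (n + m) = some (k + l) := by
    simp only [width]
    rw [Nat.add_comm n m, width_up n hq]
    simp only [Option.bind_some]
    rw [Nat.add_comm l n, width_piece_ext l hp]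
    simp
  refine E.of (Or.inl ?_) h1 h2
  have := LocalMove.exchange p (pup n q)
    (by cases p <;> cases q <;> simp_all [Piece.width, Piece.index, Piece.ins] <;> omega)
  convert this using 3
  cases p <;> cases q <;> simp_all [Piece.width, Piece.index, Piece.ins, Piece.outs, Piece.moved] <;>
    omega

/-- far commutation of a piece and a tangle -/
theorem comm_one {p : Piece} {v : Word} {n k m l : ℕ} (hp : p.width n = some k)
    (hv : width v m = some l) : E (n + m) (k + l) ([p] ++ shift k v) (shift n v ++ [p]) := by
  induction v generalizing m with
  | nil =>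
    simp [width] at hv
    subst hv
    simp only [shift_nil, List.append_nil, List.nil_append]
    apply E.refl
    simp [width, width_piece_ext m hp]
  | cons q v ih =>
    simp only [width] at hv
    cases hq : q.width m with
    | none => rw [hq] at hv; simp at hv
    | some j =>
      rw [hq] at hv
      have hv' : width v j = some l := by simpa using hv
      have a := E.appr (w := shift k v) (l := k + l) (comm_piece hp hq) (by
        rw [Nat.add_comm k j, Nat.add_comm k l]; exact width_shift k hv')
      have b := E.appl (w := [pup n q]) (n := n + m) (k := n + j) (by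
        simp only [width]
        rw [Nat.add_comm n m, width_up n hq, Nat.add_comm n j]; rfl) (ih hv')
      simp only [shift_cons, List.cons_append, List.nil_append] at a b ⊢
      exact a.trans b

/-- far commutation -/
theorem comm {u v : Word} {n k m l : ℕ} (hu : width u n = some k) (hv : width v m = some l) :
    E (n + m) (k + l) (u ++ shift k v) (shift n v ++ u) := by
  induction u generalizing n with
  | nil =>
    simp [width] at hu
    subst hu
    simp only [List.nil_append, List.append_nil]
    apply E.refl
    rw [Nat.add_comm n m, Nat.add_comm n l]; exact width_shift n hv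
  | cons p u ih =>
    simp only [width] at hu
    cases hp : p.width n with
    | none => rw [hp] at hu; simp at hu
    | some j =>
      rw [hp] at hu
      have hu' : width u j = some k := by simpa using hu
      have a := E.appl (w := [p]) (n := n + m) (k := j + m) (by
        simp only [width, width_piece_ext m hp]; rfl) (ih hu')
      have b := E.appr (w := u) (comm_one hp hv) (width_ext l hu')
      simp only [List.cons_append, List.nil_append, List.append_assoc] at a b ⊢
      exact a.trans b

end Pool.Agent.Q124.TK
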