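import Mathlib

/-!
# The normal closure of `σ₁ σ₃⁻¹` in the braid group on four strands
-/

set_option autoImplicit false

namespace Pool.Agent.Q124.TK

section
variable {G : Type*} [Group G]

theorem conj_le {N : Subgroup G} {x y : G} (hN : N = Subgroup.closure {x, y}) (g : G)
    (hx : g * x * g⁻¹ ∈ N) (hy : g * y * g⁻¹ ∈ N) : ∀ n ∈ N, g * n * g⁻¹ ∈ N := by
  intro n hn
  rw [hN] at hn
  have : Subgroup.closure {x, y} ≤ N.comap (MulAut.conj g).toMonoidHom := by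
    rw [Subgroup.closure_le]
    rintro z (rfl | rfl)
    · simpa using hx
    · simpa using hy
  simpa using this hn

/-- The subgroup generated by `x = a c⁻¹` and `y = b x b⁻¹` is normalized by `a`, `b`, `c`. -/
theorem normalized (a b c : G) (hab : a * b * a = b * a * b) (hbc : b * c * b = c * b * c)
    (hac : a * c = c * a) (N : Subgroup G)
    (hN : N = Subgroup.closure {a * c⁻¹, b * a * c⁻¹ * b⁻¹}) :
    ∀ g ∈ Subgroup.closure {a, b, c}, ∀ n ∈ N, g * n * g⁻¹ ∈ N := by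
  have hac' : a * c⁻¹ = c⁻¹ * a := by
    calc a * c⁻¹ = c⁻¹ * (c * a) * c⁻¹ := by group
      _ = c⁻¹ * (a * c) * c⁻¹ := by rw [hac]
      _ = c⁻¹ * a := by group
  have h1 : c⁻¹ * b⁻¹ * c = b * c⁻¹ * b⁻¹ := by
    have : c⁻¹ * b * c = b * c * b⁻¹ := by
      calc c⁻¹ * b * c = c⁻¹ * (b * c * b) * b⁻¹ := by group
        _ = c⁻¹ * (c * b * c) * b⁻¹ := by rw [hbc]
        _ = b * c * b⁻¹ := by group
    calc c⁻¹ * b⁻¹ * c = (c⁻¹ * b * c)⁻¹ := by group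
      _ = (b * c * b⁻¹)⁻¹ := by rw [this]
      _ = b * c⁻¹ * b⁻¹ := by group
  have h2 : a⁻¹ * b * a = b * a * b⁻¹ := by
    calc a⁻¹ * b * a = a⁻¹ * (b * a * b) * b⁻¹ := by group
      _ = a⁻¹ * (a * b * a) * b⁻¹ := by rw [hab]
      _ = b * a * b⁻¹ := by group
  set x := a * c⁻¹ with hx
  set y := b * a * c⁻¹ * b⁻¹ with hy
  have xN : x ∈ N := by rw [hN]; exact Subgroup.subset_closure (by simp)
  have yN : y ∈ N := by rw [hN]; exact Subgroup.subset_closure (by simp)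
  have ax : a * x * a⁻¹ = x := by
    calc a * x * a⁻¹ = a * (c⁻¹ * a) * a⁻¹ := by rw [hac']
      _ = x := by rw [hx]; group
  have cx : c * x * c⁻¹ = x := by
    calc c * x * c⁻¹ = c * (c⁻¹ * a) * c⁻¹ := by rw [hac']
      _ = x := by rw [hx]; group
  have bx : b * x * b⁻¹ = y := by rw [hx, hy]; group
  have ay : a * y * a⁻¹ = y * x⁻¹ := by
    calc a * y * a⁻¹ = (a * b * a) * c⁻¹ * b⁻¹ * a⁻¹ := by rw [hy]; group
      _ = (b * a * b) * c⁻¹ * b⁻¹ * a⁻¹ := by rw [hab]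
      _ = b * a * (b * c⁻¹ * b⁻¹) * a⁻¹ := by group
      _ = b * a * (c⁻¹ * b⁻¹ * c) * a⁻¹ := by rw [h1]
      _ = y * x⁻¹ := by rw [hx, hy]; group
  have cy : c * y * c⁻¹ = x⁻¹ * y := by
    have h3 : b⁻¹ * c⁻¹ * b⁻¹ = c⁻¹ * b⁻¹ * c⁻¹ := by
      calc b⁻¹ * c⁻¹ * b⁻¹ = (b * c * b)⁻¹ := by group
        _ = (c * b * c)⁻¹ := by rw [hbc]
        _ = c⁻¹ * b⁻¹ * c⁻¹ := by group
    calc c * y * c⁻¹ = c * b * a * (c⁻¹ * b⁻¹ * c⁻¹) := by rw [hy]; group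
      _ = c * b * a * (b⁻¹ * c⁻¹ * b⁻¹) := by rw [h3]
      _ = c * (b * a * b⁻¹) * c⁻¹ * b⁻¹ := by group
      _ = c * (a⁻¹ * b * a) * c⁻¹ * b⁻¹ := by rw [h2]
      _ = x⁻¹ * y := by rw [hx, hy]; group
  have by' : b * y * b⁻¹ = y * x⁻¹ * y := by
    symm
    calc y * x⁻¹ * y = b * (a * (c⁻¹ * b⁻¹ * c) * (a⁻¹ * b * a) * c⁻¹) * b⁻¹ := by
          rw [hx, hy]; group
      _ = b * (a * (b * c⁻¹ * b⁻¹) * (b * a * b⁻¹) * c⁻¹) * b⁻¹ := by rw [h1, h2]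
      _ = b * (a * b * (c⁻¹ * a) * b⁻¹ * c⁻¹) * b⁻¹ := by group
      _ = b * (a * b * (a * c⁻¹) * b⁻¹ * c⁻¹) * b⁻¹ := by rw [← hac', hx]
      _ = b * ((a * b * a) * c⁻¹ * b⁻¹ * c⁻¹) * b⁻¹ := by group
      _ = b * ((b * a * b) * c⁻¹ * b⁻¹ * c⁻¹) * b⁻¹ := by rw [hab]
      _ = b * (b * a * (b * c⁻¹ * b⁻¹) * c⁻¹) * b⁻¹ := by group
      _ = b * (b * a * (c⁻¹ * b⁻¹ * c) * c⁻¹) * b⁻¹ := by rw [h1]
      _ = b * y * b⁻¹ := by rw [hy]; group
  have ax' : a⁻¹ * x * a = x := by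
    calc a⁻¹ * x * a = a⁻¹ * (a * x * a⁻¹) * a := by rw [ax]
      _ = x := by group
  have cx' : c⁻¹ * x * c = x := by
    calc c⁻¹ * x * c = c⁻¹ * (c * x * c⁻¹) * c := by rw [cx]
      _ = x := by group
  have ay' : a⁻¹ * y * a = y * x := by
    calc a⁻¹ * y * a = a⁻¹ * (y * x⁻¹) * a * (a⁻¹ * x * a) := by group
      _ = a⁻¹ * (a * y * a⁻¹) * a * x := by rw [ay, ax']
      _ = y * x := by group
  have cy' : c⁻¹ * y * c = x * y := by
    calc c⁻¹ * y * c = (c⁻¹ * x * c) * (c⁻¹ * (x⁻¹ * y) * c) := by group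
      _ = x * (c⁻¹ * (c * y * c⁻¹) * c) := by rw [cy, cx']
      _ = x * y := by group
  have by'' : b⁻¹ * y * b = x := by
    rw [← bx]; group
  have bx' : b⁻¹ * x * b = x * y⁻¹ * x := by
    have e : b⁻¹ * x⁻¹ * b = x⁻¹ * y * x⁻¹ := by
      calc b⁻¹ * x⁻¹ * b = (b⁻¹ * y * b)⁻¹ * (b⁻¹ * (y * x⁻¹ * y) * b) * (b⁻¹ * y * b)⁻¹ := by
            group
        _ = x⁻¹ * (b⁻¹ * (b * y * b⁻¹) * b) * x⁻¹ := by rw [by', by'']
        _ = x⁻¹ * y * x⁻¹ := by group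
    calc b⁻¹ * x * b = (b⁻¹ * x⁻¹ * b)⁻¹ := by group
      _ = (x⁻¹ * y * x⁻¹)⁻¹ := by rw [e]
      _ = x * y⁻¹ * x := by group
  have key : ∀ g ∈ Subgroup.closure {a, b, c},
      (∀ n ∈ N, g * n * g⁻¹ ∈ N) ∧ (∀ n ∈ N, g⁻¹ * n * g ∈ N) := by
    intro g hg
    induction hg using Subgroup.closure_induction with
    | mem g hg =>
      have inv {g : G} : (∀ n ∈ N, g⁻¹ * n * g⁻¹⁻¹ ∈ N) → (∀ n ∈ N, g⁻¹ * n * g ∈ N) := by
        intro h n hn; simpa using h n hn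
      rcases hg with rfl | rfl | rfl
      · refine ⟨conj_le hN _ ?_ ?_, inv (conj_le hN _ ?_ ?_)⟩
        · rw [ax]; exact xN
        · rw [ay]; exact N.mul_mem yN (N.inv_mem xN)
        · rw [inv_inv, ax']; exact xN
        · rw [inv_inv, ay']; exact N.mul_mem yN xN
      · refine ⟨conj_le hN _ ?_ ?_, inv (conj_le hN _ ?_ ?_)⟩
        · rw [bx]; exact yN
        · rw [by']; exact N.mul_mem (N.mul_mem yN (N.inv_mem xN)) yN
        · rw [inv_inv, bx']; exact N.mul_mem (N.mul_mem xN (N.inv_mem yN)) xN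
        · rw [inv_inv, by'']; exact xN
      · refine ⟨conj_le hN _ ?_ ?_, inv (conj_le hN _ ?_ ?_)⟩
        · rw [cx]; exact xN
        · rw [cy]; exact N.mul_mem (N.inv_mem xN) yN
        · rw [inv_inv, cx']; exact xN
        · rw [inv_inv, cy']; exact N.mul_mem xN yN
    | one => simp
    | mul g h _ _ ig ih =>
      refine ⟨fun n hn => ?_, fun n hn => ?_⟩
      · have := ig.1 _ (ih.1 n hn)
        convert this using 1; group
      · have := ih.2 _ (ig.2 n hn)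
        convert this using 1; group
    | inv g _ ig =>
      refine ⟨fun n hn => ?_, fun n hn => ?_⟩
      · simpa using ig.2 n hn
      · simpa using ig.1 n hn
  exact fun g hg => (key g hg).1

end

end Pool.Agent.Q124.TK
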