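import Pool.Agent.Q124.TK.Cal
import Pool.Agent.Q124.TK.Grp

/-!
# The flype of a rational tangle
-/

set_option autoImplicit false

namespace Pool.Agent.Q124.TK

open Pool.Agent.Helper454.Kauf
open Pool.Agent.Helper454.Kauf.Piece (birth death pos neg)

/-- a crossing: `true` is `pos`, `false` is `neg` -/
def lett (b : Bool) (i : ℕ) : Piece := if b then pos i else neg i

@[simp] theorem lett_true (i : ℕ) : lett true i = pos i := rfl
@[simp] theorem lett_false (i : ℕ) : lett false i = neg i := rfl
@[simp] theorem up_lett (a : ℕ) (b : Bool) (i : ℕ) : pup a (lett b i) = lett b (i + a) := by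
  cases b <;> rfl

theorem width_lett (b : Bool) (i n : ℕ) (h : i + 2 ≤ n) : (lett b i).width n = some n := by
  cases b <;> simp [lett, Piece.width, h]

theorem wn {n k : ℕ} (h : n = k) : width [] n = some k := by rw [h]; rfl
theorem wb {i n k : ℕ} {w : Word} (h : i ≤ n) (h' : width w (n + 2) = some k) :
    width (birth i :: w) n = some k := by
  simp only [width, Piece.width]; rw [if_pos h]; exact h'
theorem wdt {i n k : ℕ} {w : Word} (h : i + 2 ≤ n) (h' : width w (n - 2) = some k) :
    width (death i :: w) n = some k := by
  simp only [width, Piece.width]; rw [if_pos h]; exact h'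
theorem wp {i n k : ℕ} {w : Word} (h : i + 2 ≤ n) (h' : width w n = some k) :
    width (pos i :: w) n = some k := by
  simp only [width, Piece.width]; rw [if_pos h]; exact h'
theorem wg {i n k : ℕ} {w : Word} (h : i + 2 ≤ n) (h' : width w n = some k) :
    width (neg i :: w) n = some k := by
  simp only [width, Piece.width]; rw [if_pos h]; exact h'
theorem wl {b : Bool} {i n k : ℕ} {w : Word} (h : i + 2 ≤ n) (h' : width w n = some k) :
    width (lett b i :: w) n = some k := by
  cases b
  · exact wg h h'
  · exact wp h h'

/-- the two caps side by side -/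
def cups : Word := [birth 0, birth 2]

/-- the braid word with the given letters -/
def bw (β : List (Bool × Fin 3)) : Word := β.map (fun x => lett x.1 x.2.1)

@[simp] theorem bw_nil : bw [] = [] := rfl
@[simp] theorem bw_append (β γ : List (Bool × Fin 3)) : bw (β ++ γ) = bw β ++ bw γ := by
  simp [bw]
@[simp] theorem bw_cons (x : Bool × Fin 3) (β : List (Bool × Fin 3)) :
    bw (x :: β) = lett x.1 x.2.1 :: bw β := rfl

theorem width_bw (β : List (Bool × Fin 3)) : width (bw β) 4 = some 4 := by
  induction β with
  | nil => rfl
  | cons x β ih =>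
    simp only [bw_cons, width]
    rw [width_lett _ _ _ (by omega)]
    simpa using ih

theorem width_cups : width cups 0 = some 4 := by simp [cups, width, Piece.width]

/-- the first move at a maximum -/
theorem E.r1b {n : ℕ} (b : Bool) (i : ℕ) (h : i ≤ n) :
    E n (n + 2) [birth i, lett b i] [birth i] := by
  cases b
  · exact E.of (Or.inr (FirstMove.birthNeg i)) (by simp [width, Piece.width, h])
      (by simp [width, Piece.width, h])
  · exact E.of (Or.inr (FirstMove.birthPos i)) (by simp [width, Piece.width, h])
      (by simp [width, Piece.width, h])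

/-- the second move -/
theorem E.r2 {n : ℕ} (b : Bool) (i : ℕ) (h : i + 2 ≤ n) :
    E n n [lett b i, lett (!b) i] [] := by
  cases b
  · exact E.of (Or.inl (LocalMove.second₂ i)) (by simp [width, Piece.width, h])
      (by simp [width])
  · exact E.of (Or.inl (LocalMove.second₁ i)) (by simp [width, Piece.width, h])
      (by simp [width])

/-- sliding a crossing over a maximum -/
theorem E.sb {n : ℕ} (b : Bool) (i : ℕ) (h : i + 1 ≤ n) :
    E n (n + 2) [birth i, lett b (i + 1)] [birth (i + 1), lett (!b) i] := by
  cases b
  · exact E.of (Or.inl (LocalMove.slideBirth₂ i))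
      (by
        repeat (first
          | refine wb (by omega) ?_ | refine wdt (by omega) ?_ | refine wp (by omega) ?_
          | refine wg (by omega) ?_ | refine wl (by omega) ?_)
        exact wn (by omega)) (by
        repeat (first
          | refine wb (by omega) ?_ | refine wdt (by omega) ?_ | refine wp (by omega) ?_
          | refine wg (by omega) ?_ | refine wl (by omega) ?_)
        exact wn (by omega))
  · exact E.of (Or.inl (LocalMove.slideBirth₁ i))
      (by
        repeat (first
          | refine wb (by omega) ?_ | refine wdt (by omega) ?_ | refine wp (by omega) ?_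
          | refine wg (by omega) ?_ | refine wl (by omega) ?_)
        exact wn (by omega)) (by
        repeat (first
          | refine wb (by omega) ?_ | refine wdt (by omega) ?_ | refine wp (by omega) ?_
          | refine wg (by omega) ?_ | refine wl (by omega) ?_)
        exact wn (by omega))

/-- sliding a crossing over a minimum -/
theorem E.sd {n : ℕ} (b : Bool) (i : ℕ) (h : i + 3 ≤ n) :
    E n (n - 2) [lett b (i + 1), death i] [lett (!b) i, death (i + 1)] := by
  cases b
  · exact E.of (Or.inl (LocalMove.slideDeath₂ i))
      (by
        repeat (first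
          | refine wb (by omega) ?_ | refine wdt (by omega) ?_ | refine wp (by omega) ?_
          | refine wg (by omega) ?_ | refine wl (by omega) ?_)
        exact wn (by omega)) (by
        repeat (first
          | refine wb (by omega) ?_ | refine wdt (by omega) ?_ | refine wp (by omega) ?_
          | refine wg (by omega) ?_ | refine wl (by omega) ?_)
        exact wn (by omega))
  · exact E.of (Or.inl (LocalMove.slideDeath₁ i))
      (by
        repeat (first
          | refine wb (by omega) ?_ | refine wdt (by omega) ?_ | refine wp (by omega) ?_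
          | refine wg (by omega) ?_ | refine wl (by omega) ?_)
        exact wn (by omega)) (by
        repeat (first
          | refine wb (by omega) ?_ | refine wdt (by omega) ?_ | refine wp (by omega) ?_
          | refine wg (by omega) ?_ | refine wl (by omega) ?_)
        exact wn (by omega))

/-- the third move -/
theorem E.r3 {n : ℕ} (i : ℕ) (h : i + 3 ≤ n) :
    E n n [pos i, pos (i + 1), pos i] [pos (i + 1), pos i, pos (i + 1)] := by
  exact E.of (Or.inl (LocalMove.third i)) (by
        repeat (first
          | refine wb (by omega) ?_ | refine wdt (by omega) ?_ | refine wp (by omega) ?_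
          | refine wg (by omega) ?_ | refine wl (by omega) ?_)
        exact wn (by omega))
    (by
        repeat (first
          | refine wb (by omega) ?_ | refine wdt (by omega) ?_ | refine wp (by omega) ?_
          | refine wg (by omega) ?_ | refine wl (by omega) ?_)
        exact wn (by omega))

/-- tangles without upper endpoints and with four lower endpoints -/
def T4 : Type := {w : Word // width w 0 = some 4}

instance T4.setoid : Setoid T4 where
  r u v := E 0 4 u.1 v.1
  iseqv := ⟨fun u => E.refl u.2, fun h => h.symm, fun h h' => h.trans h'⟩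

/-- isotopy classes of such tangles -/
abbrev Om : Type := Quotient T4.setoid

/-- the class of a tangle -/
def cls (w : Word) (h : width w 0 = some 4) : Om := Quotient.mk _ ⟨w, h⟩

theorem cls_eq {u v : Word} {hu : width u 0 = some 4} {hv : width v 0 = some 4} :
    cls u hu = cls v hv ↔ E 0 4 u v := by
  constructor
  · intro h
    exact Quotient.exact h
  · intro h
    exact Quotient.sound h

theorem width_app_lett {w : Word} (hw : width w 0 = some 4) (b : Bool) (i : Fin 3) :
    width (w ++ [lett b i]) 0 = some 4 :=
  width_comp hw (by simp only [width]; rw [width_lett _ _ _ (by omega)]; rfl)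

theorem E.lw {n : ℕ} (b : Bool) (i : ℕ) (h : i + 2 ≤ n) : width [lett b i] n = some n := by
  simp only [width]; rw [width_lett _ _ _ h]; rfl

/-- appending a crossing -/
def act (b : Bool) (i : Fin 3) : Om → Om :=
  Quotient.map (fun u => ⟨u.1 ++ [lett b i], width_app_lett u.2 b i⟩)
    (fun _ _ h => E.appr h (E.lw b i (by omega)))

theorem act_cls (b : Bool) (i : Fin 3) (w : Word) (h : width w 0 = some 4) :
    act b i (cls w h) = cls (w ++ [lett b i]) (width_app_lett h b i) := rfl

theorem act_act (b : Bool) (i : Fin 3) (ω : Om) : act (!b) i (act b i ω) = ω := by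
  induction ω using Quotient.inductionOn with
  | h u =>
    obtain ⟨u, hu⟩ := u
    show act (!b) i (act b i (cls u hu)) = cls u hu
    rw [act_cls, act_cls, cls_eq]
    have := E.appl hu (E.r2 (n := 4) b i (by omega))
    simpa using this

/-- appending a positive crossing, as a permutation -/
def gen (i : Fin 3) : Equiv.Perm Om where
  toFun := act true i
  invFun := act false i
  left_inv ω := act_act true i ω
  right_inv ω := act_act false i ω

theorem gen_third (i j : Fin 3) (h : j.1 = i.1 + 1) :
    gen i * gen j * gen i = gen j * gen i * gen j := by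
  ext ω
  induction ω using Quotient.inductionOn with
  | h u =>
    obtain ⟨u, hu⟩ := u
    show act true i (act true j (act true i (cls u hu))) =
      act true j (act true i (act true j (cls u hu)))
    rw [act_cls, act_cls, act_cls, act_cls, act_cls, act_cls, cls_eq]
    have := E.appl hu (E.r3 (n := 4) i (by omega))
    simpa [h] using this

theorem gen_far : gen 0 * gen 2 = gen 2 * gen 0 := by
  ext ω
  induction ω using Quotient.inductionOn with
  | h u =>
    obtain ⟨u, hu⟩ := u
    show act true 0 (act true 2 (cls u hu)) = act true 2 (act true 0 (cls u hu))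
    rw [act_cls, act_cls, act_cls, act_cls, cls_eq]
    have := E.appl hu (comm_piece (p := pos 0) (q := pos 0) (n := 2) (m := 2) (k := 2) (l := 2)
      rfl rfl)
    simpa using this.symm

/-- nested caps, with a crossing on the left or on the right -/
theorem nest (b : Bool) (i : Fin 3) (hi : i = 0 ∨ i = 2) :
    E 0 4 (cups ++ [lett b 1]) ([birth 0, birth 1] ++ [lett (!b) i]) := by
  rcases hi with rfl | rfl
  · have h0 : E 0 4 [birth 0, birth 2] [birth 0, birth 0] :=
      comm_piece (p := birth 0) (q := birth 0) (n := 0) (m := 0) (k := 2) (l := 2) rfl rfl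
    have h1 := E.appr h0 (E.lw b 1 (by omega))
    have h2 : E 2 4 [birth 0, lett b 1] [birth 1, lett (!b) 0] := E.sb b 0 (by omega)
    have h3 := E.appl (w := [birth 0]) (n := 0) rfl h2
    exact h1.trans h3
  · have h2 : E 2 4 [birth 1, lett (!b) 2] [birth 2, lett (! !b) 1] := E.sb (!b) 1 (by omega)
    have h3 := E.appl (w := [birth 0]) (n := 0) rfl h2
    simp only [Bool.not_not] at h3
    exact h3.symm

theorem nest_eq (b : Bool) : E 0 4 ([birth 0, birth 1] ++ [lett b 0])
    ([birth 0, birth 1] ++ [lett b 2]) := by
  have h1 := nest (!b) 0 (by simp)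
  have h2 := nest (!b) 2 (by simp)
  simp only [Bool.not_not] at h1 h2
  exact h1.symm.trans h2

theorem width_nest : width [birth 0, birth 1] 0 = some 4 := by simp [width, Piece.width]

/-- the first generator fixes the caps -/
theorem fix_x : (gen 0 * (gen 2)⁻¹) (cls cups width_cups) = cls cups width_cups := by
  show act true 0 (act false 2 (cls cups width_cups)) = _
  rw [act_cls, act_cls, cls_eq]
  have h1 : E 2 4 [birth 2, lett false 2] [birth 2] := E.r1b false 2 (by omega)
  have h2 := E.appr (E.appl (w := [birth 0]) (n := 0) rfl h1) (E.lw true 0 (by omega))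
  have h3 : E 0 2 [birth 0, lett true 0] [birth 0] := E.r1b true 0 (by omega)
  have h4 := E.appr (w := [birth 2]) h3 (l := 4) (by simp [width, Piece.width])
  have h5 : E 2 4 [lett true 0, birth 2] [birth 2, lett true 0] :=
    comm_piece (p := pos 0) (q := birth 0) (n := 2) (m := 0) (k := 2) (l := 2) rfl rfl
  have h6 := E.appl (w := [birth 0]) (n := 0) rfl h5
  simp only [List.cons_append, List.nil_append] at h2 h4 h6
  exact h2.trans (h6.symm.trans h4)

/-- the second generator fixes the caps -/
theorem fix_y : (gen 1 * gen 0 * (gen 2)⁻¹ * (gen 1)⁻¹) (cls cups width_cups) =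
    cls cups width_cups := by
  show act true 1 (act true 0 (act false 2 (act false 1 (cls cups width_cups)))) = _
  rw [act_cls, act_cls, act_cls, act_cls, cls_eq]
  have h1 : E 0 4 (cups ++ [lett false 1]) ([birth 0, birth 1] ++ [lett true 2]) :=
    nest false 2 (by simp)
  have h2 := E.appr h1 (E.lw false 2 (by omega))
  have h3 := E.appl width_nest (E.r2 (n := 4) true 2 (by omega))
  simp only [Bool.not_true, List.append_assoc, List.cons_append, List.nil_append,
    List.append_nil] at h2 h3
  have h4 := E.appr (h2.trans h3) (E.lw true 0 (by omega))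
  have h5 : E 0 4 (cups ++ [lett false 1]) ([birth 0, birth 1] ++ [lett true 0]) :=
    nest false 0 (by simp)
  have h6 := E.appr (h4.trans h5.symm) (E.lw true 1 (by omega))
  have h7 := E.appl width_cups (E.r2 (n := 4) false 1 (by omega))
  simp only [Bool.not_false, List.append_assoc, List.cons_append, List.nil_append,
    List.append_nil] at h6 h7
  have := h6.trans h7
  simpa using this

/-- the action of a braid word -/
theorem act_bw (β : List (Bool × Fin 3)) : ∃ g ∈ Subgroup.closure {gen 0, gen 1, gen 2},
    ∀ w (h : width w 0 = some 4), g (cls w h) = cls (w ++ bw β) (width_comp h (width_bw β)) := by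
  induction β with
  | nil => exact ⟨1, Subgroup.one_mem _, fun w h => by simp [cls]⟩
  | cons x β ih =>
    obtain ⟨g, hg, h⟩ := ih
    have hx : gen x.2 ∈ Subgroup.closure {gen 0, gen 1, gen 2} := by
      apply Subgroup.subset_closure
      generalize x.2 = i
      fin_cases i <;> simp
    rcases hb : x.1 with _ | _
    · refine ⟨g * (gen x.2)⁻¹, Subgroup.mul_mem _ hg (Subgroup.inv_mem _ hx), fun w hw => ?_⟩
      show g (act false x.2 (cls w hw)) = _
      rw [act_cls, h, cls_eq]
      have := E.refl (width_comp hw (width_bw (x :: β)))
      simpa [hb] using this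
    · refine ⟨g * gen x.2, Subgroup.mul_mem _ hg hx, fun w hw => ?_⟩
      show g (act true x.2 (cls w hw)) = _
      rw [act_cls, h, cls_eq]
      have := E.refl (width_comp hw (width_bw (x :: β)))
      simpa [hb] using this

/-- **The flype.** -/
theorem flype_pos (β : List (Bool × Fin 3)) :
    E 0 4 (cups ++ bw β ++ [pos 0]) (cups ++ bw β ++ [pos 2]) := by
  obtain ⟨g, hg, h⟩ := act_bw β
  set N : Subgroup (Equiv.Perm Om) :=
    Subgroup.closure {gen 0 * (gen 2)⁻¹, gen 1 * gen 0 * (gen 2)⁻¹ * (gen 1)⁻¹} with hN
  have hn := normalized (gen 0) (gen 1) (gen 2) (gen_third 0 1 rfl) (gen_third 1 2 rfl) gen_far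
    N hN g⁻¹ (Subgroup.inv_mem _ hg) (gen 0 * (gen 2)⁻¹) (Subgroup.subset_closure (by simp))
  have hfix : ∀ n ∈ N, n (cls cups width_cups) = cls cups width_cups := by
    intro n hn
    have : N ≤ MulAction.stabilizer (Equiv.Perm Om) (cls cups width_cups) := by
      rw [hN, Subgroup.closure_le]
      rintro z (rfl | rfl)
      · exact fix_x
      · exact fix_y
    exact this hn
  have h1 := hfix _ hn
  simp only [inv_inv, Equiv.Perm.mul_apply] at h1
  rw [Equiv.Perm.inv_eq_iff_eq] at h1
  rw [h cups width_cups] at h1
  have h2 : gen 0 (cls (cups ++ bw β) (width_comp width_cups (width_bw β))) =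
      gen 2 (cls (cups ++ bw β) (width_comp width_cups (width_bw β))) := by
    have e : (gen 0 * (gen 2)⁻¹) = (gen 2)⁻¹ * gen 0 := by
      rw [mul_inv_eq_iff_eq_mul, mul_assoc, gen_far]; simp
    have h3 : (gen 0 * (gen 2)⁻¹) (cls (cups ++ bw β) (width_comp width_cups (width_bw β))) =
      (cls (cups ++ bw β) (width_comp width_cups (width_bw β))) := h1
    rw [e, Equiv.Perm.mul_apply, Equiv.Perm.inv_eq_iff_eq] at h3
    exact h3
  exact cls_eq.1 h2

end Pool.Agent.Q124.TK
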