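import Pool.Agent.Q124.TK.Flype

/-!
# Rational tangles, rotations and the half turns of the tie
-/

set_option autoImplicit false

namespace Pool.Agent.Q124.TK

open Pool.Agent.Helper454.Kauf
open Pool.Agent.Helper454.Kauf.Piece (birth death pos neg)

theorem flype (b : Bool) (β : List (Bool × Fin 3)) :
    E 0 4 (cups ++ bw β ++ [lett b 0]) (cups ++ bw β ++ [lett b 2]) := by
  cases b
  · have h := flype_pos (β ++ [(false, 0)])
    have w := width_comp width_cups (width_bw β)
    have h0 := E.appl w (E.r2 (n := 4) false 0 (by omega))
    have h2 := E.appl (width_comp w (E.lw false 0 (by omega : 0 + 2 ≤ 4)))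
      (E.r2 (n := 4) true 2 (by omega))
    simp only [bw_append, bw_cons, bw_nil, List.append_assoc, List.cons_append, List.nil_append,
      lett_true, lett_false, Bool.not_true, Bool.not_false, List.append_nil, Fin.val_zero]
      at h h0 h2 ⊢
    -- T ≈ T neg0 pos2
    have h3 := h0.symm.trans h
    have h4 := E.appr h3 (E.lw false 2 (by omega))
    simp only [List.append_assoc, List.cons_append, List.nil_append, lett_false] at h4
    exact (h4.trans h2).symm
  · exact flype_pos β

/-- rational tangles: two caps side by side above a braid on four strands -/
def Rat (T : Word) : Prop := ∃ β : List (Bool × Fin 3), E 0 4 T (cups ++ bw β)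

theorem Rat.wid {T : Word} (h : Rat T) : width T 0 = some 4 := by
  obtain ⟨β, h⟩ := h; exact h.1

theorem Rat.congr {T T' : Word} (h : Rat T) (h' : E 0 4 T' T) : Rat T' := by
  obtain ⟨β, h⟩ := h; exact ⟨β, h'.trans h⟩

theorem Rat.app {T : Word} (h : Rat T) (b : Bool) (i : ℕ) (hi : i < 3) :
    Rat (T ++ [lett b i]) := by
  obtain ⟨β, h⟩ := h
  refine ⟨β ++ [(b, ⟨i, hi⟩)], ?_⟩
  have := E.appr h (E.lw b i (by omega))
  simpa using this

theorem wsh {W rest : Word} {a m l N K : ℕ} (h : width W m = some l) (hN : a + m ≤ N)
    (h' : width rest (N - m + l) = some K) : width (shift a W ++ rest) N = some K := by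
  obtain ⟨r, rfl⟩ := Nat.exists_eq_add_of_le hN
  have h1 := width_ext r (width_shift a h)
  rw [Nat.add_comm m a] at h1
  refine width_comp h1 ?_
  convert h' using 1
  congr 1
  omega

theorem wsh0 {W rest : Word} {m l N K : ℕ} (h : width W m = some l) (hN : m ≤ N)
    (h' : width rest (N - m + l) = some K) : width (W ++ rest) N = some K := by
  have := wsh (a := 0) (rest := rest) (K := K) (N := N) h (by omega) h'
  simpa using this

theorem wsh1 {W : Word} {a m l N K : ℕ} (h : width W m = some l) (hN : a + m ≤ N)
    (h' : N - m + l = K) : width (shift a W) N = some K := by
  have := wsh (rest := []) (K := K) (N := N) h hN (wn h')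
  simpa using this

theorem wsh2 {W : Word} {m l N K : ℕ} (h : width W m = some l) (hN : m ≤ N)
    (h' : N - m + l = K) : width W N = some K := by
  have := wsh (a := 0) (rest := []) (K := K) (N := N) h (by omega) (wn h')
  simpa using this

/-- zigzags -/
theorem E.z1 {n : ℕ} (i : ℕ) (h : i + 1 ≤ n) : E n n [birth i, death (i + 1)] [] :=
  E.of (Or.inl (LocalMove.zigzag₁ i)) (by
        repeat (first
          | refine wb (by omega) ?_ | refine wdt (by omega) ?_ | refine wp (by omega) ?_
          | refine wg (by omega) ?_ | refine wl (by omega) ?_)
        exact wn (by omega)) (by
        repeat (first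
          | refine wb (by omega) ?_ | refine wdt (by omega) ?_ | refine wp (by omega) ?_
          | refine wg (by omega) ?_ | refine wl (by omega) ?_)
        exact wn (by omega))

theorem E.z2 {n : ℕ} (i : ℕ) (h : i + 1 ≤ n) : E n n [birth (i + 1), death i] [] :=
  E.of (Or.inl (LocalMove.zigzag₂ i)) (by
        repeat (first
          | refine wb (by omega) ?_ | refine wdt (by omega) ?_ | refine wp (by omega) ?_
          | refine wg (by omega) ?_ | refine wl (by omega) ?_)
        exact wn (by omega)) (by
        repeat (first
          | refine wb (by omega) ?_ | refine wdt (by omega) ?_ | refine wp (by omega) ?_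
          | refine wg (by omega) ?_ | refine wl (by omega) ?_)
        exact wn (by omega))

/-- the first rotation -/
def rot (T : Word) : Word := [birth 0] ++ shift 1 T ++ [death 0]

/-- the second rotation -/
def rot' (T : Word) : Word := [birth 0] ++ shift 1 T ++ [death 4]

theorem rotE {T T' : Word} (h : E 0 4 T T') : E 0 4 (rot T) (rot T') := by
  have h1 : E 2 6 (shift 1 T) (shift 1 T') := (h.shift 1).ext 1
  exact E.ctx [birth 0] [death 0] (by
        repeat (first
          | refine wb (by omega) ?_ | refine wdt (by omega) ?_ | refine wp (by omega) ?_
          | refine wg (by omega) ?_ | refine wl (by omega) ?_)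
        exact wn (by omega)) (by
        repeat (first
          | refine wb (by omega) ?_ | refine wdt (by omega) ?_ | refine wp (by omega) ?_
          | refine wg (by omega) ?_ | refine wl (by omega) ?_)
        exact wn (by omega)) h1

theorem rotE' {T T' : Word} (h : E 0 4 T T') : E 0 4 (rot' T) (rot' T') := by
  have h1 : E 2 6 (shift 1 T) (shift 1 T') := (h.shift 1).ext 1
  exact E.ctx [birth 0] [death 4] (by
        repeat (first
          | refine wb (by omega) ?_ | refine wdt (by omega) ?_ | refine wp (by omega) ?_
          | refine wg (by omega) ?_ | refine wl (by omega) ?_)
        exact wn (by omega)) (by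
        repeat (first
          | refine wb (by omega) ?_ | refine wdt (by omega) ?_ | refine wp (by omega) ?_
          | refine wg (by omega) ?_ | refine wl (by omega) ?_)
        exact wn (by omega)) h1

theorem nest_rat : Rat [birth 0, birth 1] := by
  have h := nest false 0 (by simp)
  have h1 := E.appr h (E.lw false 0 (by omega))
  have h2 := E.appl width_nest (E.r2 (n := 4) true 0 (by omega))
  refine ⟨[(false, 1), (false, 0)], ?_⟩
  simp only [List.append_assoc, List.cons_append, List.nil_append, Bool.not_false, Bool.not_true,
    lett_true, lett_false, List.append_nil, bw_cons, bw_nil, Fin.val_zero, Fin.val_one] at h1 h2 ⊢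
  exact (h1.trans h2).symm

/-- far commutation of two crossings, in the form we use it -/
theorem E.pc {p q : Piece} (n k m l : ℕ) (hp : p.width n = some k) (hq : q.width m = some l)
    {N K : ℕ} (hN : n + m = N) (hK : k + l = K) : E N K [p, pup k q] [pup n q, p] := by
  subst hN; subst hK; exact comm_piece hp hq

theorem pwl (b : Bool) {i n : ℕ} (h : i + 2 ≤ n) : (lett b i).width n = some n := width_lett _ _ _ h
theorem pwb {i n : ℕ} (h : i ≤ n) : (birth i).width n = some (n + 2) := by simp [Piece.width, h]
theorem pwd {i n : ℕ} (h : i + 2 ≤ n) : (death i).width n = some (n - 2) := by
  simp [Piece.width, h]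

theorem rot_cups : E 0 4 (rot cups) [birth 0, birth 1] := by
  have h1 : E 4 4 [death 0, birth 1] [birth 3, death 0] := comm_piece (p := death 0) (q := birth 1)
    (n := 2) (k := 0) (m := 2) (l := 4) rfl rfl
  have h2 := E.ctx (m := 0) (l := 4) [birth 0, birth 1] [] (by
        repeat (first
          | refine wb (by omega) ?_ | refine wdt (by omega) ?_ | refine wp (by omega) ?_
          | refine wg (by omega) ?_ | refine wl (by omega) ?_)
        exact wn (by omega)) (by
        repeat (first
          | refine wb (by omega) ?_ | refine wdt (by omega) ?_ | refine wp (by omega) ?_
          | refine wg (by omega) ?_ | refine wl (by omega) ?_)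
        exact wn (by omega)) h1
  have h3 := E.ctx (m := 0) (l := 4) [birth 0] [birth 1] (by
        repeat (first
          | refine wb (by omega) ?_ | refine wdt (by omega) ?_ | refine wp (by omega) ?_
          | refine wg (by omega) ?_ | refine wl (by omega) ?_)
        exact wn (by omega)) (by
        repeat (first
          | refine wb (by omega) ?_ | refine wdt (by omega) ?_ | refine wp (by omega) ?_
          | refine wg (by omega) ?_ | refine wl (by omega) ?_)
        exact wn (by omega)) (E.z2 (n := 2) 0 (by omega))
  simp [rot, cups] at h2 h3 ⊢
  exact h2.symm.trans h3

theorem rot_cups' : E 0 4 (rot' cups) [birth 0, birth 1] := by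
  have h3 := E.ctx (m := 0) (l := 4) [birth 0, birth 1] [] (by
        repeat (first
          | refine wb (by omega) ?_ | refine wdt (by omega) ?_ | refine wp (by omega) ?_
          | refine wg (by omega) ?_ | refine wl (by omega) ?_)
        exact wn (by omega)) (by
        repeat (first
          | refine wb (by omega) ?_ | refine wdt (by omega) ?_ | refine wp (by omega) ?_
          | refine wg (by omega) ?_ | refine wl (by omega) ?_)
        exact wn (by omega))
    (E.z1 (n := 4) 3 (by omega))
  simp [rot', cups] at h3 ⊢
  exact h3

theorem rot_lett {T : Word} (hT : width T 0 = some 4) (b : Bool) (i : ℕ) (hi : i < 2) :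
    E 0 4 (rot (T ++ [lett b (i + 1)])) (rot T ++ [lett b i]) := by
  have h1 : E 6 4 [death 0, lett b i] [lett b (i + 2), death 0] := by
    have := comm_piece (p := death 0) (q := lett b i) (n := 2) (k := 0) (m := 4) (l := 4) rfl
      (pwl b (by omega))
    simpa using this
  have h2 := E.ctx (m := 0) (l := 4) ([birth 0] ++ shift 1 T) [] (by
        try simp only [List.append_assoc, List.cons_append, List.nil_append, shift_append,
          shift_shift, shift_nil, shift_cons, up_birth, up_death, up_pos, up_neg, up_lett]
        repeat (first
          | refine wb (by omega) ?_ | refine wdt (by omega) ?_ | refine wp (by omega) ?_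
          | refine wg (by omega) ?_ | refine wl (by omega) ?_
          | refine wsh (by assumption) (by omega) ?_ | refine wsh0 (by assumption) (by omega) ?_)
        first
          | exact wn (by omega) | exact wsh1 (by assumption) (by omega) (by omega)
          | exact wsh2 (by assumption) (by omega) (by omega)) (by
        repeat (first
          | refine wb (by omega) ?_ | refine wdt (by omega) ?_ | refine wp (by omega) ?_
          | refine wg (by omega) ?_ | refine wl (by omega) ?_)
        exact wn (by omega)) h1
  simp [rot] at h2 ⊢
  exact h2.symm

theorem rot_lett' {T : Word} (hT : width T 0 = some 4) (b : Bool) (i : ℕ) (hi : i < 2) :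
    E 0 4 (rot' (T ++ [lett b i])) (rot' T ++ [lett b (i + 1)]) := by
  have h1 : E 6 4 [lett b (i + 1), death 4] [death 4, lett b (i + 1)] := by
    have := comm_piece (p := lett b (i + 1)) (q := death 0) (n := 4) (k := 4) (m := 2) (l := 0)
      (pwl b (by omega)) rfl
    simpa using this
  have h2 := E.ctx (m := 0) (l := 4) ([birth 0] ++ shift 1 T) [] (by
        try simp only [List.append_assoc, List.cons_append, List.nil_append, shift_append,
          shift_shift, shift_nil, shift_cons, up_birth, up_death, up_pos, up_neg, up_lett]
        repeat (first
          | refine wb (by omega) ?_ | refine wdt (by omega) ?_ | refine wp (by omega) ?_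
          | refine wg (by omega) ?_ | refine wl (by omega) ?_
          | refine wsh (by assumption) (by omega) ?_ | refine wsh0 (by assumption) (by omega) ?_)
        first
          | exact wn (by omega) | exact wsh1 (by assumption) (by omega) (by omega)
          | exact wsh2 (by assumption) (by omega) (by omega)) (by
        repeat (first
          | refine wb (by omega) ?_ | refine wdt (by omega) ?_ | refine wp (by omega) ?_
          | refine wg (by omega) ?_ | refine wl (by omega) ?_)
        exact wn (by omega)) h1
  simp [rot'] at h2 ⊢
  exact h2

theorem rot_rat_aux (β : List (Bool × Fin 3)) : Rat (rot (cups ++ bw β)) := by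
  induction β using List.reverseRecOn with
  | nil => exact nest_rat.congr (by simpa using rot_cups)
  | append_singleton β x ih =>
    have w := width_comp width_cups (width_bw β)
    rw [bw_append, ← List.append_assoc]
    have main : ∀ (b : Bool) (i : ℕ), i < 2 → Rat (rot (cups ++ bw β ++ [lett b (i + 1)])) :=
      fun b i hi => (ih.app b i (by omega)).congr (rot_lett w b i hi)
    obtain ⟨b, i⟩ := x
    fin_cases i
    · exact (main b 1 (by omega)).congr (rotE (flype b β))
    · exact main b 0 (by omega)
    · exact main b 1 (by omega)

theorem rot_rat_aux' (β : List (Bool × Fin 3)) : Rat (rot' (cups ++ bw β)) := by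
  induction β using List.reverseRecOn with
  | nil => exact nest_rat.congr (by simpa using rot_cups')
  | append_singleton β x ih =>
    have w := width_comp width_cups (width_bw β)
    rw [bw_append, ← List.append_assoc]
    have main : ∀ (b : Bool) (i : ℕ), i < 2 → Rat (rot' (cups ++ bw β ++ [lett b i])) :=
      fun b i hi => (ih.app b (i + 1) (by omega)).congr (rot_lett' w b i hi)
    obtain ⟨b, i⟩ := x
    fin_cases i
    · exact main b 0 (by omega)
    · exact main b 1 (by omega)
    · exact (main b 0 (by omega)).congr (rotE' (flype b β).symm)

/-- Rotations of rational tangles are rational. -/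
theorem Rat.rot {T : Word} (h : Rat T) : Rat (rot T) := by
  obtain ⟨β, h⟩ := h
  exact (rot_rat_aux β).congr (rotE h)

theorem Rat.rot' {T : Word} (h : Rat T) : Rat (rot' T) := by
  obtain ⟨β, h⟩ := h
  exact (rot_rat_aux' β).congr (rotE' h)

/-- the rational tangle of a state in the region left or right -/
def FS (W : Word) : Word := cups ++ shift 1 W

/-- the rational tangle of a state in the centre region -/
def FC (W : Word) : Word := [birth 0, birth 2, birth 3] ++ shift 1 W

theorem stay (W : Word) (c : Bool) : FS (W ++ [lett c 0]) = FS W ++ [lett c 1] := by
  simp [FS]

/-- from the left region to the centre region -/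
theorem toC_L {W : Word} (hW : width W 2 = some 2) (c : Bool) :
    E 0 4 (FC ([lett c 0] ++ shift 1 W ++ [death 0])) (rot (FS W ++ [lett c 0])) := by
  have h1 : E 4 6 [lett c 1, birth 3] [birth 3, lett c 1] := by
    have := comm_piece (p := lett c 1) (q := birth 0) (n := 3) (k := 3) (m := 1) (l := 3)
      (pwl c (by omega)) rfl
    simpa using this
  have a1 := E.ctx (m := 0) (l := 4) [birth 0, birth 2] (shift 2 W ++ [death 1]) (by
        repeat (first
          | refine wb (by omega) ?_ | refine wdt (by omega) ?_ | refine wp (by omega) ?_
          | refine wg (by omega) ?_ | refine wl (by omega) ?_)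
        exact wn (by omega)) (by
        try simp only [List.append_assoc, List.cons_append, List.nil_append, shift_append,
          shift_shift, shift_nil, shift_cons, up_birth, up_death, up_pos, up_neg, up_lett]
        repeat (first
          | refine wb (by omega) ?_ | refine wdt (by omega) ?_ | refine wp (by omega) ?_
          | refine wg (by omega) ?_ | refine wl (by omega) ?_
          | refine wsh (by assumption) (by omega) ?_ | refine wsh0 (by assumption) (by omega) ?_)
        first
          | exact wn (by omega) | exact wsh1 (by assumption) (by omega) (by omega)
          | exact wsh2 (by assumption) (by omega) (by omega))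
    h1
  have a2 := E.ctx (m := 0) (l := 4) [] ([birth 3] ++ shift 2 W ++ [death 1]) (by
        repeat (first
          | refine wb (by omega) ?_ | refine wdt (by omega) ?_ | refine wp (by omega) ?_
          | refine wg (by omega) ?_ | refine wl (by omega) ?_)
        exact wn (by omega)) (by
        try simp only [List.append_assoc, List.cons_append, List.nil_append, shift_append,
          shift_shift, shift_nil, shift_cons, up_birth, up_death, up_pos, up_neg, up_lett]
        repeat (first
          | refine wb (by omega) ?_ | refine wdt (by omega) ?_ | refine wp (by omega) ?_
          | refine wg (by omega) ?_ | refine wl (by omega) ?_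
          | refine wsh (by assumption) (by omega) ?_ | refine wsh0 (by assumption) (by omega) ?_)
        first
          | exact wn (by omega) | exact wsh1 (by assumption) (by omega) (by omega)
          | exact wsh2 (by assumption) (by omega) (by omega))
    (nest c 0 (by simp))
  have h3 : E 4 6 [lett (!c) 0, birth 3] [birth 3, lett (!c) 0] := by
    have := comm_piece (p := lett (!c) 0) (q := birth 1) (n := 2) (k := 2) (m := 2) (l := 4)
      (pwl _ (by omega)) rfl
    simpa using this
  have a3 := E.ctx (m := 0) (l := 4) [birth 0, birth 1] (shift 2 W ++ [death 1]) (by
        repeat (first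
          | refine wb (by omega) ?_ | refine wdt (by omega) ?_ | refine wp (by omega) ?_
          | refine wg (by omega) ?_ | refine wl (by omega) ?_)
        exact wn (by omega)) (by
        try simp only [List.append_assoc, List.cons_append, List.nil_append, shift_append,
          shift_shift, shift_nil, shift_cons, up_birth, up_death, up_pos, up_neg, up_lett]
        repeat (first
          | refine wb (by omega) ?_ | refine wdt (by omega) ?_ | refine wp (by omega) ?_
          | refine wg (by omega) ?_ | refine wl (by omega) ?_
          | refine wsh (by assumption) (by omega) ?_ | refine wsh0 (by assumption) (by omega) ?_)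
        first
          | exact wn (by omega) | exact wsh1 (by assumption) (by omega) (by omega)
          | exact wsh2 (by assumption) (by omega) (by omega))
    h3
  have h4 : E 6 6 ([lett (!c) 0] ++ shift 2 W) (shift 2 W ++ [lett (!c) 0]) :=
    comm (u := [lett (!c) 0]) (n := 2) (k := 2) (m := 4) (l := 4) (by
        repeat (first
          | refine wb (by omega) ?_ | refine wdt (by omega) ?_ | refine wp (by omega) ?_
          | refine wg (by omega) ?_ | refine wl (by omega) ?_)
        exact wn (by omega)) (width_ext 2 hW)
  have a4 := E.ctx (m := 0) (l := 4) [birth 0, birth 1, birth 3] [death 1] (by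
        repeat (first
          | refine wb (by omega) ?_ | refine wdt (by omega) ?_ | refine wp (by omega) ?_
          | refine wg (by omega) ?_ | refine wl (by omega) ?_)
        exact wn (by omega)) (by
        repeat (first
          | refine wb (by omega) ?_ | refine wdt (by omega) ?_ | refine wp (by omega) ?_
          | refine wg (by omega) ?_ | refine wl (by omega) ?_)
        exact wn (by omega)) h4
  have a5 := E.ctx (m := 0) (l := 4) ([birth 0, birth 1, birth 3] ++ shift 2 W) [] (by
        try simp only [List.append_assoc, List.cons_append, List.nil_append, shift_append,
          shift_shift, shift_nil, shift_cons, up_birth, up_death, up_pos, up_neg, up_lett]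
        repeat (first
          | refine wb (by omega) ?_ | refine wdt (by omega) ?_ | refine wp (by omega) ?_
          | refine wg (by omega) ?_ | refine wl (by omega) ?_
          | refine wsh (by assumption) (by omega) ?_ | refine wsh0 (by assumption) (by omega) ?_)
        first
          | exact wn (by omega) | exact wsh1 (by assumption) (by omega) (by omega)
          | exact wsh2 (by assumption) (by omega) (by omega))
    (by
        repeat (first
          | refine wb (by omega) ?_ | refine wdt (by omega) ?_ | refine wp (by omega) ?_
          | refine wg (by omega) ?_ | refine wl (by omega) ?_)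
        exact wn (by omega)) (E.sd (n := 6) c 0 (by omega))
  simp [FC, FS, rot, cups] at a1 a2 a3 a4 a5 ⊢
  exact (a1.symm.trans (a2.trans (a3.trans (a4.trans a5.symm))))

/-- from the centre region to the left region -/
theorem fromC_L {W : Word} (hW : width W 3 = some 1) (c : Bool) :
    E 0 4 (FS ([birth 0, lett c 1] ++ shift 1 W)) (rot' (FC W) ++ [lett c 0]) := by
  have hW' : width (shift 2 W) 5 = some 3 := width_shift 2 hW
  have h1 : E 8 4 (shift 2 W ++ [death 4]) ([death 6] ++ shift 2 W) :=
    comm (u := shift 2 W) (v := [death 1]) (n := 5) (k := 3) (m := 3) (l := 1) hW' (by
        repeat (first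
          | refine wb (by omega) ?_ | refine wdt (by omega) ?_ | refine wp (by omega) ?_
          | refine wg (by omega) ?_ | refine wl (by omega) ?_)
        exact wn (by omega))
  have b1 := E.ctx (m := 0) (l := 4) [birth 0, birth 1, birth 3, birth 4] [lett c 0] (by
        repeat (first
          | refine wb (by omega) ?_ | refine wdt (by omega) ?_ | refine wp (by omega) ?_
          | refine wg (by omega) ?_ | refine wl (by omega) ?_)
        exact wn (by omega))
    (by
        repeat (first
          | refine wb (by omega) ?_ | refine wdt (by omega) ?_ | refine wp (by omega) ?_
          | refine wg (by omega) ?_ | refine wl (by omega) ?_)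
        exact wn (by omega)) h1
  have h2 : E 6 6 [birth 4, death 6] [death 4, birth 4] := by
    have := comm_piece (p := birth 4) (q := death 0) (n := 4) (k := 6) (m := 2) (l := 0) rfl rfl
    simpa using this
  have b2 := E.ctx (m := 0) (l := 4) [birth 0, birth 1, birth 3] (shift 2 W ++ [lett c 0]) (by
        repeat (first
          | refine wb (by omega) ?_ | refine wdt (by omega) ?_ | refine wp (by omega) ?_
          | refine wg (by omega) ?_ | refine wl (by omega) ?_)
        exact wn (by omega))
    (by
        try simp only [List.append_assoc, List.cons_append, List.nil_append, shift_append,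
          shift_shift, shift_nil, shift_cons, up_birth, up_death, up_pos, up_neg, up_lett]
        repeat (first
          | refine wb (by omega) ?_ | refine wdt (by omega) ?_ | refine wp (by omega) ?_
          | refine wg (by omega) ?_ | refine wl (by omega) ?_
          | refine wsh (by assumption) (by omega) ?_ | refine wsh0 (by assumption) (by omega) ?_)
        first
          | exact wn (by omega) | exact wsh1 (by assumption) (by omega) (by omega)
          | exact wsh2 (by assumption) (by omega) (by omega)) h2
  have b3 := E.ctx (m := 0) (l := 4) [birth 0, birth 1] ([birth 4] ++ shift 2 W ++ [lett c 0])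
    (by
        repeat (first
          | refine wb (by omega) ?_ | refine wdt (by omega) ?_ | refine wp (by omega) ?_
          | refine wg (by omega) ?_ | refine wl (by omega) ?_)
        exact wn (by omega)) (by
        try simp only [List.append_assoc, List.cons_append, List.nil_append, shift_append,
          shift_shift, shift_nil, shift_cons, up_birth, up_death, up_pos, up_neg, up_lett]
        repeat (first
          | refine wb (by omega) ?_ | refine wdt (by omega) ?_ | refine wp (by omega) ?_
          | refine wg (by omega) ?_ | refine wl (by omega) ?_
          | refine wsh (by assumption) (by omega) ?_ | refine wsh0 (by assumption) (by omega) ?_)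
        first
          | exact wn (by omega) | exact wsh1 (by assumption) (by omega) (by omega)
          | exact wsh2 (by assumption) (by omega) (by omega)) (E.z1 (n := 4) 3 (by omega))
  have h4 : E 6 4 ([lett c 0] ++ shift 2 W) (shift 2 W ++ [lett c 0]) :=
    comm (u := [lett c 0]) (n := 2) (k := 2) (m := 4) (l := 2) (by
        repeat (first
          | refine wb (by omega) ?_ | refine wdt (by omega) ?_ | refine wp (by omega) ?_
          | refine wg (by omega) ?_ | refine wl (by omega) ?_)
        exact wn (by omega)) (width_ext 1 hW)
  have b4 := E.ctx (m := 0) (l := 4) [birth 0, birth 1, birth 4] [] (by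
        repeat (first
          | refine wb (by omega) ?_ | refine wdt (by omega) ?_ | refine wp (by omega) ?_
          | refine wg (by omega) ?_ | refine wl (by omega) ?_)
        exact wn (by omega)) (by
        repeat (first
          | refine wb (by omega) ?_ | refine wdt (by omega) ?_ | refine wp (by omega) ?_
          | refine wg (by omega) ?_ | refine wl (by omega) ?_)
        exact wn (by omega)) h4
  have h5 : E 4 6 [lett c 0, birth 4] [birth 4, lett c 0] := by
    have := comm_piece (p := lett c 0) (q := birth 2) (n := 2) (k := 2) (m := 2) (l := 4)
      (pwl _ (by omega)) rfl
    simpa using this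
  have b5 := E.ctx (m := 0) (l := 4) [birth 0, birth 1] (shift 2 W) (by
        repeat (first
          | refine wb (by omega) ?_ | refine wdt (by omega) ?_ | refine wp (by omega) ?_
          | refine wg (by omega) ?_ | refine wl (by omega) ?_)
        exact wn (by omega)) (by
        try simp only [List.append_assoc, List.cons_append, List.nil_append, shift_append,
          shift_shift, shift_nil, shift_cons, up_birth, up_death, up_pos, up_neg, up_lett]
        repeat (first
          | refine wb (by omega) ?_ | refine wdt (by omega) ?_ | refine wp (by omega) ?_
          | refine wg (by omega) ?_ | refine wl (by omega) ?_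
          | refine wsh (by assumption) (by omega) ?_ | refine wsh0 (by assumption) (by omega) ?_)
        first
          | exact wn (by omega) | exact wsh1 (by assumption) (by omega) (by omega)
          | exact wsh2 (by assumption) (by omega) (by omega)) h5
  have b6 := E.ctx (m := 0) (l := 4) [] ([birth 4] ++ shift 2 W) (by
        repeat (first
          | refine wb (by omega) ?_ | refine wdt (by omega) ?_ | refine wp (by omega) ?_
          | refine wg (by omega) ?_ | refine wl (by omega) ?_)
        exact wn (by omega)) (by
        try simp only [List.append_assoc, List.cons_append, List.nil_append, shift_append,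
          shift_shift, shift_nil, shift_cons, up_birth, up_death, up_pos, up_neg, up_lett]
        repeat (first
          | refine wb (by omega) ?_ | refine wdt (by omega) ?_ | refine wp (by omega) ?_
          | refine wg (by omega) ?_ | refine wl (by omega) ?_
          | refine wsh (by assumption) (by omega) ?_ | refine wsh0 (by assumption) (by omega) ?_)
        first
          | exact wn (by omega) | exact wsh1 (by assumption) (by omega) (by omega)
          | exact wsh2 (by assumption) (by omega) (by omega)) (nest_eq c)
  have h7 : E 4 6 [lett c 2, birth 4] [birth 4, lett c 2] := by
    have := comm_piece (p := lett c 2) (q := birth 0) (n := 4) (k := 4) (m := 0) (l := 2)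
      (pwl _ (by omega)) rfl
    simpa using this
  have b7 := E.ctx (m := 0) (l := 4) [birth 0, birth 1] (shift 2 W) (by
        repeat (first
          | refine wb (by omega) ?_ | refine wdt (by omega) ?_ | refine wp (by omega) ?_
          | refine wg (by omega) ?_ | refine wl (by omega) ?_)
        exact wn (by omega)) (by
        try simp only [List.append_assoc, List.cons_append, List.nil_append, shift_append,
          shift_shift, shift_nil, shift_cons, up_birth, up_death, up_pos, up_neg, up_lett]
        repeat (first
          | refine wb (by omega) ?_ | refine wdt (by omega) ?_ | refine wp (by omega) ?_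
          | refine wg (by omega) ?_ | refine wl (by omega) ?_
          | refine wsh (by assumption) (by omega) ?_ | refine wsh0 (by assumption) (by omega) ?_)
        first
          | exact wn (by omega) | exact wsh1 (by assumption) (by omega) (by omega)
          | exact wsh2 (by assumption) (by omega) (by omega)) h7
  have h8 : E 2 6 [birth 1, birth 4] [birth 2, birth 1] := by
    have := comm_piece (p := birth 1) (q := birth 0) (n := 2) (k := 4) (m := 0) (l := 2) rfl rfl
    simpa using this
  have b8 := E.ctx (m := 0) (l := 4) [birth 0] ([lett c 2] ++ shift 2 W) (by
        repeat (first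
          | refine wb (by omega) ?_ | refine wdt (by omega) ?_ | refine wp (by omega) ?_
          | refine wg (by omega) ?_ | refine wl (by omega) ?_)
        exact wn (by omega)) (by
        try simp only [List.append_assoc, List.cons_append, List.nil_append, shift_append,
          shift_shift, shift_nil, shift_cons, up_birth, up_death, up_pos, up_neg, up_lett]
        repeat (first
          | refine wb (by omega) ?_ | refine wdt (by omega) ?_ | refine wp (by omega) ?_
          | refine wg (by omega) ?_ | refine wl (by omega) ?_
          | refine wsh (by assumption) (by omega) ?_ | refine wsh0 (by assumption) (by omega) ?_)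
        first
          | exact wn (by omega) | exact wsh1 (by assumption) (by omega) (by omega)
          | exact wsh2 (by assumption) (by omega) (by omega)) h8
  simp [FC, FS, rot', cups] at b1 b2 b3 b4 b5 b6 b7 b8 ⊢
  exact (b1.trans (b2.trans (b3.trans (b4.symm.trans (b5.symm.trans (b6.trans
    (b7.trans b8))))))).symm

/-- from the right region to the centre region -/
theorem toC_R {W : Word} (hW : width W 2 = some 2) (c : Bool) :
    E 0 4 (FC ([lett c 1] ++ W ++ [death 1])) (FS W ++ [lett c 2]) := by
  have hW' : width (shift 1 W) 3 = some 3 := width_shift 1 hW
  have c1 := E.ctx (m := 0) (l := 4) [birth 0, birth 2] (shift 1 W ++ [death 2]) (by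
        repeat (first
          | refine wb (by omega) ?_ | refine wdt (by omega) ?_ | refine wp (by omega) ?_
          | refine wg (by omega) ?_ | refine wl (by omega) ?_)
        exact wn (by omega)) (by
        try simp only [List.append_assoc, List.cons_append, List.nil_append, shift_append,
          shift_shift, shift_nil, shift_cons, up_birth, up_death, up_pos, up_neg, up_lett]
        repeat (first
          | refine wb (by omega) ?_ | refine wdt (by omega) ?_ | refine wp (by omega) ?_
          | refine wg (by omega) ?_ | refine wl (by omega) ?_
          | refine wsh (by assumption) (by omega) ?_ | refine wsh0 (by assumption) (by omega) ?_)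
        first
          | exact wn (by omega) | exact wsh1 (by assumption) (by omega) (by omega)
          | exact wsh2 (by assumption) (by omega) (by omega))
    (E.sb (n := 4) (!c) 2 (by omega))
  have h2 : E 6 6 (shift 1 W ++ [lett (!c) 3]) ([lett (!c) 3] ++ shift 1 W) := by
    have := comm (u := shift 1 W) (v := [lett (!c) 0]) (n := 3) (k := 3) (m := 3) (l := 3) hW'
      (by
        repeat (first
          | refine wb (by omega) ?_ | refine wdt (by omega) ?_ | refine wp (by omega) ?_
          | refine wg (by omega) ?_ | refine wl (by omega) ?_)
        exact wn (by omega))
    simpa using this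
  have c2 := E.ctx (m := 0) (l := 4) [birth 0, birth 2, birth 2] [death 2] (by
        repeat (first
          | refine wb (by omega) ?_ | refine wdt (by omega) ?_ | refine wp (by omega) ?_
          | refine wg (by omega) ?_ | refine wl (by omega) ?_)
        exact wn (by omega)) (by
        repeat (first
          | refine wb (by omega) ?_ | refine wdt (by omega) ?_ | refine wp (by omega) ?_
          | refine wg (by omega) ?_ | refine wl (by omega) ?_)
        exact wn (by omega)) h2
  have c3 := E.ctx (m := 0) (l := 4) ([birth 0, birth 2, birth 2] ++ shift 1 W) [] (by
        try simp only [List.append_assoc, List.cons_append, List.nil_append, shift_append,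
          shift_shift, shift_nil, shift_cons, up_birth, up_death, up_pos, up_neg, up_lett]
        repeat (first
          | refine wb (by omega) ?_ | refine wdt (by omega) ?_ | refine wp (by omega) ?_
          | refine wg (by omega) ?_ | refine wl (by omega) ?_
          | refine wsh (by assumption) (by omega) ?_ | refine wsh0 (by assumption) (by omega) ?_)
        first
          | exact wn (by omega) | exact wsh1 (by assumption) (by omega) (by omega)
          | exact wsh2 (by assumption) (by omega) (by omega))
    (by
        repeat (first
          | refine wb (by omega) ?_ | refine wdt (by omega) ?_ | refine wp (by omega) ?_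
          | refine wg (by omega) ?_ | refine wl (by omega) ?_)
        exact wn (by omega)) (E.sd (n := 6) (!c) 2 (by omega))
  have h4 : E 2 6 [birth 2, birth 4] [birth 2, birth 2] := by
    have := comm_piece (p := birth 2) (q := birth 0) (n := 2) (k := 4) (m := 0) (l := 2) rfl rfl
    simpa using this
  have c4 := E.ctx (m := 0) (l := 4) [birth 0] (shift 1 W ++ [lett c 2, death 3]) (by
        repeat (first
          | refine wb (by omega) ?_ | refine wdt (by omega) ?_ | refine wp (by omega) ?_
          | refine wg (by omega) ?_ | refine wl (by omega) ?_)
        exact wn (by omega))
    (by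
        try simp only [List.append_assoc, List.cons_append, List.nil_append, shift_append,
          shift_shift, shift_nil, shift_cons, up_birth, up_death, up_pos, up_neg, up_lett]
        repeat (first
          | refine wb (by omega) ?_ | refine wdt (by omega) ?_ | refine wp (by omega) ?_
          | refine wg (by omega) ?_ | refine wl (by omega) ?_
          | refine wsh (by assumption) (by omega) ?_ | refine wsh0 (by assumption) (by omega) ?_)
        first
          | exact wn (by omega) | exact wsh1 (by assumption) (by omega) (by omega)
          | exact wsh2 (by assumption) (by omega) (by omega)) h4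
  have h5 : E 4 6 (shift 1 W ++ [birth 4]) ([birth 4] ++ shift 1 W) := by
    have := comm (u := shift 1 W) (v := [birth 0]) (n := 4) (k := 4) (m := 0) (l := 2)
      (width_ext 1 hW') (by
        repeat (first
          | refine wb (by omega) ?_ | refine wdt (by omega) ?_ | refine wp (by omega) ?_
          | refine wg (by omega) ?_ | refine wl (by omega) ?_)
        exact wn (by omega))
    simpa using this
  have c5 := E.ctx (m := 0) (l := 4) [birth 0, birth 2] [lett c 2, death 3] (by
        repeat (first
          | refine wb (by omega) ?_ | refine wdt (by omega) ?_ | refine wp (by omega) ?_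
          | refine wg (by omega) ?_ | refine wl (by omega) ?_)
        exact wn (by omega)) (by
        repeat (first
          | refine wb (by omega) ?_ | refine wdt (by omega) ?_ | refine wp (by omega) ?_
          | refine wg (by omega) ?_ | refine wl (by omega) ?_)
        exact wn (by omega)) h5
  have h6 : E 4 6 [lett c 2, birth 4] [birth 4, lett c 2] := by
    have := comm_piece (p := lett c 2) (q := birth 0) (n := 4) (k := 4) (m := 0) (l := 2)
      (pwl _ (by omega)) rfl
    simpa using this
  have c6 := E.ctx (m := 0) (l := 4) ([birth 0, birth 2] ++ shift 1 W) [death 3] (by
        try simp only [List.append_assoc, List.cons_append, List.nil_append, shift_append,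
          shift_shift, shift_nil, shift_cons, up_birth, up_death, up_pos, up_neg, up_lett]
        repeat (first
          | refine wb (by omega) ?_ | refine wdt (by omega) ?_ | refine wp (by omega) ?_
          | refine wg (by omega) ?_ | refine wl (by omega) ?_
          | refine wsh (by assumption) (by omega) ?_ | refine wsh0 (by assumption) (by omega) ?_)
        first
          | exact wn (by omega) | exact wsh1 (by assumption) (by omega) (by omega)
          | exact wsh2 (by assumption) (by omega) (by omega))
    (by
        repeat (first
          | refine wb (by omega) ?_ | refine wdt (by omega) ?_ | refine wp (by omega) ?_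
          | refine wg (by omega) ?_ | refine wl (by omega) ?_)
        exact wn (by omega)) h6
  have c7 := E.ctx (m := 0) (l := 4) ([birth 0, birth 2] ++ shift 1 W ++ [lett c 2]) [] (by
        try simp only [List.append_assoc, List.cons_append, List.nil_append, shift_append,
          shift_shift, shift_nil, shift_cons, up_birth, up_death, up_pos, up_neg, up_lett]
        repeat (first
          | refine wb (by omega) ?_ | refine wdt (by omega) ?_ | refine wp (by omega) ?_
          | refine wg (by omega) ?_ | refine wl (by omega) ?_
          | refine wsh (by assumption) (by omega) ?_ | refine wsh0 (by assumption) (by omega) ?_)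
        first
          | exact wn (by omega) | exact wsh1 (by assumption) (by omega) (by omega)
          | exact wsh2 (by assumption) (by omega) (by omega))
    (by
        repeat (first
          | refine wb (by omega) ?_ | refine wdt (by omega) ?_ | refine wp (by omega) ?_
          | refine wg (by omega) ?_ | refine wl (by omega) ?_)
        exact wn (by omega)) (E.z2 (n := 4) 3 (by omega))
  simp [FC, FS, cups] at c1 c2 c3 c4 c5 c6 c7 ⊢
  exact c1.symm.trans (c2.symm.trans (c3.trans (c4.symm.trans (c5.symm.trans
    (c6.symm.trans c7)))))

/-- from the centre region to the right region -/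
theorem fromC_R {W : Word} (hW : width W 3 = some 1) (c : Bool) :
    E 0 4 (FS ([birth 2, lett c 1] ++ W)) (FC W ++ [lett c 2]) := by
  have hW' : width (shift 1 W) 4 = some 2 := width_shift 1 hW
  have h1 : E 2 6 [birth 2, birth 3, lett c 2] [birth 2, birth 3, lett c 4] := by
    have := (nest_eq c).shift 2
    simpa using this
  have d1 := E.ctx (m := 0) (l := 4) [birth 0] (shift 1 W) (by
        repeat (first
          | refine wb (by omega) ?_ | refine wdt (by omega) ?_ | refine wp (by omega) ?_
          | refine wg (by omega) ?_ | refine wl (by omega) ?_)
        exact wn (by omega)) (by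
        try simp only [List.append_assoc, List.cons_append, List.nil_append, shift_append,
          shift_shift, shift_nil, shift_cons, up_birth, up_death, up_pos, up_neg, up_lett]
        repeat (first
          | refine wb (by omega) ?_ | refine wdt (by omega) ?_ | refine wp (by omega) ?_
          | refine wg (by omega) ?_ | refine wl (by omega) ?_
          | refine wsh (by assumption) (by omega) ?_ | refine wsh0 (by assumption) (by omega) ?_)
        first
          | exact wn (by omega) | exact wsh1 (by assumption) (by omega) (by omega)
          | exact wsh2 (by assumption) (by omega) (by omega)) h1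
  have h2 : E 6 4 (shift 1 W ++ [lett c 2]) ([lett c 4] ++ shift 1 W) := by
    have := comm (u := shift 1 W) (v := [lett c 0]) (n := 4) (k := 2) (m := 2) (l := 2) hW'
      (by
        repeat (first
          | refine wb (by omega) ?_ | refine wdt (by omega) ?_ | refine wp (by omega) ?_
          | refine wg (by omega) ?_ | refine wl (by omega) ?_)
        exact wn (by omega))
    simpa using this
  have d2 := E.ctx (m := 0) (l := 4) [birth 0, birth 2, birth 3] [] (by
        repeat (first
          | refine wb (by omega) ?_ | refine wdt (by omega) ?_ | refine wp (by omega) ?_
          | refine wg (by omega) ?_ | refine wl (by omega) ?_)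
        exact wn (by omega)) (by
        repeat (first
          | refine wb (by omega) ?_ | refine wdt (by omega) ?_ | refine wp (by omega) ?_
          | refine wg (by omega) ?_ | refine wl (by omega) ?_)
        exact wn (by omega)) h2
  simp [FC, FS, cups] at d1 d2 ⊢
  exact d1.trans d2.symm

/-- the closure of a state -/
theorem closure_two {V : Word} (hV : width V 2 = some 2) (h : Rat (FS V)) :
    ∃ β : List (Bool × Fin 3), E 0 0 ([birth 0] ++ V ++ [death 0])
      (cups ++ bw β ++ [death 0, death 0]) := by
  have g1 := E.ctx (m := 0) (l := 0) [birth 0] (V ++ [death 0]) (by
        repeat (first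
          | refine wb (by omega) ?_ | refine wdt (by omega) ?_ | refine wp (by omega) ?_
          | refine wg (by omega) ?_ | refine wl (by omega) ?_)
        exact wn (by omega)) (by
        try simp only [List.append_assoc, List.cons_append, List.nil_append, shift_append,
          shift_shift, shift_nil, shift_cons, up_birth, up_death, up_pos, up_neg, up_lett]
        repeat (first
          | refine wb (by omega) ?_ | refine wdt (by omega) ?_ | refine wp (by omega) ?_
          | refine wg (by omega) ?_ | refine wl (by omega) ?_
          | refine wsh (by assumption) (by omega) ?_ | refine wsh0 (by assumption) (by omega) ?_)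
        first
          | exact wn (by omega) | exact wsh1 (by assumption) (by omega) (by omega)
          | exact wsh2 (by assumption) (by omega) (by omega))
    (E.z1 (n := 2) 1 (by omega))
  have h2 : E 4 2 (V ++ [death 2]) ([death 2] ++ V) :=
    comm (u := V) (v := [death 0]) (n := 2) (k := 2) (m := 2) (l := 0) hV (by
        repeat (first
          | refine wb (by omega) ?_ | refine wdt (by omega) ?_ | refine wp (by omega) ?_
          | refine wg (by omega) ?_ | refine wl (by omega) ?_)
        exact wn (by omega))
  have g2 := E.ctx (m := 0) (l := 0) [birth 0, birth 1] [death 0] (by
        repeat (first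
          | refine wb (by omega) ?_ | refine wdt (by omega) ?_ | refine wp (by omega) ?_
          | refine wg (by omega) ?_ | refine wl (by omega) ?_)
        exact wn (by omega)) (by
        repeat (first
          | refine wb (by omega) ?_ | refine wdt (by omega) ?_ | refine wp (by omega) ?_
          | refine wg (by omega) ?_ | refine wl (by omega) ?_)
        exact wn (by omega)) h2
  have h3 : E 4 0 [death 0, death 0] [death 2, death 0] :=
    comm_piece (p := death 0) (q := death 0) (n := 2) (k := 0) (m := 2) (l := 0) rfl rfl
  have g3 := E.ctx (m := 0) (l := 0) ([birth 0, birth 1] ++ V) [] (by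
        try simp only [List.append_assoc, List.cons_append, List.nil_append, shift_append,
          shift_shift, shift_nil, shift_cons, up_birth, up_death, up_pos, up_neg, up_lett]
        repeat (first
          | refine wb (by omega) ?_ | refine wdt (by omega) ?_ | refine wp (by omega) ?_
          | refine wg (by omega) ?_ | refine wl (by omega) ?_
          | refine wsh (by assumption) (by omega) ?_ | refine wsh0 (by assumption) (by omega) ?_)
        first
          | exact wn (by omega) | exact wsh1 (by assumption) (by omega) (by omega)
          | exact wsh2 (by assumption) (by omega) (by omega)) (by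
        repeat (first
          | refine wb (by omega) ?_ | refine wdt (by omega) ?_ | refine wp (by omega) ?_
          | refine wg (by omega) ?_ | refine wl (by omega) ?_)
        exact wn (by omega)) h3
  have h4 : E 6 4 ([death 0] ++ V) (shift 2 V ++ [death 0]) := by
    have := comm (u := [death 0]) (v := V) (n := 2) (k := 0) (m := 4) (l := 4) (by
        repeat (first
          | refine wb (by omega) ?_ | refine wdt (by omega) ?_ | refine wp (by omega) ?_
          | refine wg (by omega) ?_ | refine wl (by omega) ?_)
        exact wn (by omega))
      (width_ext 2 hV)
    simpa using this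
  have g4 := E.ctx (m := 0) (l := 4) [birth 0, birth 1, birth 3] [] (by
        repeat (first
          | refine wb (by omega) ?_ | refine wdt (by omega) ?_ | refine wp (by omega) ?_
          | refine wg (by omega) ?_ | refine wl (by omega) ?_)
        exact wn (by omega)) (by
        repeat (first
          | refine wb (by omega) ?_ | refine wdt (by omega) ?_ | refine wp (by omega) ?_
          | refine wg (by omega) ?_ | refine wl (by omega) ?_)
        exact wn (by omega)) h4
  have g5 := E.appr rot_cups (width_ext 2 hV)
  have g6 : E 0 4 ([birth 0, birth 1] ++ V) (rot (FS V)) := by
    simp [FS, rot, cups] at g4 g5 ⊢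
    exact g5.symm.trans g4
  obtain ⟨β, hβ⟩ := h.rot.congr g6
  refine ⟨β, ?_⟩
  have g7 := E.appr (w := [death 0, death 0]) (l := 0) hβ (by
        repeat (first
          | refine wb (by omega) ?_ | refine wdt (by omega) ?_ | refine wp (by omega) ?_
          | refine wg (by omega) ?_ | refine wl (by omega) ?_)
        exact wn (by omega))
  simp at g1 g2 g3 g7 ⊢
  exact g1.symm.trans (g2.symm.trans (g3.symm.trans g7))

end Pool.Agent.Q124.TK
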